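import Pool.Agent.HIK.Stmts

/-! Squad HIK, row BOX (helper67): the number of the algebraic integers of bounded house. -/

set_option autoImplicit false

namespace Pool.Agent.HIK.H67

open Polynomial NumberField Pool.Agent.HIK

theorem exists_coord (K : Type) [Field K] [NumberField K] :
    ∃ (M : ℕ) (f : 𝓞 K → (K →+* ℂ) → ℤ), Function.Injective f ∧
      ∀ (a : 𝓞 K) (i : K →+* ℂ), ((|f a i| : ℤ) : ℝ) ≤ M * house (a : K) := by
  classical
  have hc : ∃ c0 : ℝ, ∀ (α : 𝓞 K) (i : K →+* ℂ),
      ‖(((integralBasis K).reindex (equivReindex K).symm).repr α i : ℂ)‖ ≤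
        c0 * house (algebraMap (𝓞 K) K α) :=
    ⟨_, fun α i => NumberField.house.basis_repr_norm_le_const_mul_house K α i⟩
  obtain ⟨c0, hc0⟩ := hc
  obtain ⟨M, hM⟩ := exists_nat_ge c0
  refine ⟨M, fun a i => (RingOfIntegers.basis K).repr a ((equivReindex K) i), ?_, ?_⟩
  · intro a b hab
    apply (RingOfIntegers.basis K).repr.injective
    ext j
    have h := congrFun hab ((equivReindex K).symm j)
    simpa using h
  · intro a i
    have h := hc0 a i
    simp only [Module.Basis.repr_reindex, Finsupp.mapDomain_equiv_apply,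
      integralBasis_repr_apply, eq_intCast, Rat.cast_intCast, Complex.norm_intCast,
      Equiv.symm_symm] at h
    push_cast
    refine h.trans ?_
    exact mul_le_mul_of_nonneg_right hM (house_nonneg _)

theorem box : BoxStmt := by
  intro K _ _
  classical
  obtain ⟨M, f, hf, hb⟩ := exists_coord K
  refine ⟨(2 * M + 1) ^ Module.finrank ℚ K, fun X => ?_⟩
  set S : Finset ((K →+* ℂ) → ℤ) :=
    Fintype.piFinset fun _ => Finset.Icc (-((M * X : ℕ) : ℤ)) ((M * X : ℕ) : ℤ) with hS
  have hmem : ∀ a : 𝓞 K, house (a : K) ≤ X → f a ∈ S := by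
    intro a ha
    rw [hS, Fintype.mem_piFinset]
    intro i
    rw [Finset.mem_Icc, ← abs_le]
    have h1 : ((|f a i| : ℤ) : ℝ) ≤ ((((M * X : ℕ) : ℤ)) : ℝ) := by
      refine (hb a i).trans ?_
      push_cast
      exact mul_le_mul_of_nonneg_left ha (Nat.cast_nonneg _)
    exact_mod_cast h1
  have hcardS : S.card ≤ (2 * M + 1) ^ Module.finrank ℚ K * (X + 1) ^ Module.finrank ℚ K := by
    rw [hS, Fintype.card_piFinset, Finset.prod_const, Finset.card_univ, Embeddings.card K ℂ,
      ← mul_pow]
    apply Nat.pow_le_pow_left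
    rw [Int.card_Icc]
    have h2 : (((M * X : ℕ) : ℤ) + 1 - -((M * X : ℕ) : ℤ)).toNat = 2 * (M * X) + 1 := by
      omega
    rw [h2]
    nlinarith [Nat.zero_le M, Nat.zero_le X]
  have hfin : {a : 𝓞 K | house (a : K) ≤ X}.Finite := by
    apply Set.Finite.of_finite_image (f := f) _ hf.injOn
    exact S.finite_toSet.subset (by
      rintro _ ⟨a, ha, rfl⟩
      exact hmem a ha)
  refine ⟨hfin, ?_⟩
  have hinj : Function.Injective
      (fun a : {a : 𝓞 K // house (a : K) ≤ X} => (⟨f a.1, hmem a.1 a.2⟩ : {x // x ∈ S})) := by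
    intro a b hab
    exact Subtype.ext (hf (congrArg Subtype.val hab))
  have h3 := Nat.card_le_card_of_injective _ hinj
  rw [Nat.card_eq_fintype_card (α := {x // x ∈ S}), Fintype.card_coe] at h3
  exact h3.trans hcardS

end Pool.Agent.HIK.H67
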